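import Pool.Agent.Helper42.QD.Stmts

/-!
# ALK1: algebra of the case `sg ^ h ≠ 1`
-/

set_option autoImplicit false

namespace Pool.Agent.Helper42.QD

/-- Hilbert 90 for an involution -/
theorem alk1_h90 {E : Type} [Field E] (t : E ≃+* E) (ht : ∀ a, t (t a) = a)
    (hn : ∃ y, t y ≠ y) (u : E) (hu : u * t u = 1) : ∃ e : E, e ≠ 0 ∧ u * t e = e := by
  have hu0 : u ≠ 0 := by
    intro h
    rw [h, zero_mul] at hu
    exact zero_ne_one hu
  by_cases hall : ∀ y, y + u * t y = 0
  · exfalso
    have h1 := hall 1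
    rw [map_one, mul_one] at h1
    obtain ⟨y, hy⟩ := hn
    have h2 := hall y
    apply hy
    have h3 : u = -1 := by linear_combination h1
    rw [h3] at h2
    linear_combination -h2
  · push Not at hall
    obtain ⟨y, hy⟩ := hall
    refine ⟨y + u * t y, hy, ?_⟩
    rw [map_add, map_mul, ht]
    linear_combination y * hu

/-- norm map of an involution on units -/
def alk1N {E : Type} [Field E] (t : E ≃+* E) : Eˣ →* Eˣ where
  toFun u := u * Units.map t.toRingHom.toMonoidHom u
  map_one' := by rw [map_one, mul_one]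
  map_mul' a b := by rw [map_mul]; exact mul_mul_mul_comm _ _ _ _

/-- the map `u ↦ u / t u` -/
def alk1D {E : Type} [Field E] (t : E ≃+* E) : Eˣ →* Eˣ where
  toFun u := u * (Units.map t.toRingHom.toMonoidHom u)⁻¹
  map_one' := by rw [map_one, inv_one, mul_one]
  map_mul' a b := by rw [map_mul, mul_inv]; exact mul_mul_mul_comm _ _ _ _

theorem alk1_card {G H : Type} [Group G] [Group H] [Finite G] (f : G →* H) :
    Nat.card f.ker * Nat.card f.range = Nat.card G := by
  rw [← Subgroup.index_ker f]
  exact Subgroup.card_mul_index f.ker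

theorem alk1_norm {E : Type} [Field E] [Finite E] (t : E ≃+* E) (ht : ∀ a, t (t a) = a)
    (hn : ∃ y, t y ≠ y) (κ : E) (hκ : κ ≠ 0) (hf : t κ = κ) : ∃ z : E, z ≠ 0 ∧ z * t z = κ := by
  classical
  have hval : ∀ u : Eˣ, ((Units.map t.toRingHom.toMonoidHom u : Eˣ) : E) = t u := fun u => rfl
  -- kernel of the norm is the image of `D`
  have h1 : (alk1N t).ker = (alk1D t).range := by
    ext u
    constructor
    · intro hu
      have hu1 : (u : E) * t u = 1 := by
        have := congrArg (fun x : Eˣ => (x : E)) (MonoidHom.mem_ker.1 hu)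
        exact this
      obtain ⟨e, he0, he⟩ := alk1_h90 t ht hn u hu1
      refine ⟨Units.mk0 e he0, ?_⟩
      refine Units.ext ?_
      show e * (((Units.map t.toRingHom.toMonoidHom (Units.mk0 e he0))⁻¹ : Eˣ) : E) = u
      rw [Units.val_inv_eq_inv_val, hval]
      show e * (t e)⁻¹ = u
      have hte : t e ≠ 0 := (map_ne_zero t).2 he0
      rw [mul_inv_eq_iff_eq_mul₀ hte]
      exact he.symm
    · rintro ⟨e, rfl⟩
      rw [MonoidHom.mem_ker]
      refine Units.ext ?_
      show ((alk1D t e : Eˣ) : E) * t ((alk1D t e : Eˣ) : E) = 1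
      have hD : ((alk1D t e : Eˣ) : E) = (e : E) * (t e)⁻¹ := by
        show (e : E) * (((Units.map t.toRingHom.toMonoidHom e)⁻¹ : Eˣ) : E) = _
        rw [Units.val_inv_eq_inv_val, hval]
      have he : (e : E) ≠ 0 := e.ne_zero
      have hte : t (e : E) ≠ 0 := (map_ne_zero t).2 he
      rw [hD, map_mul, map_inv₀, ht]
      field_simp
  have h2 := alk1_card (alk1N t)
  have h3 := alk1_card (alk1D t)
  rw [h1] at h2
  have hpos : 0 < Nat.card (alk1D t).range := Nat.card_pos
  have h4 : Nat.card (alk1N t).range = Nat.card (alk1D t).ker := by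
    have : Nat.card (alk1D t).range * Nat.card (alk1N t).range =
        Nat.card (alk1D t).range * Nat.card (alk1D t).ker := by
      rw [h2, mul_comm, h3]
    exact Nat.eq_of_mul_eq_mul_left hpos this
  have hle : (alk1N t).range ≤ (alk1D t).ker := by
    rintro _ ⟨u, rfl⟩
    rw [MonoidHom.mem_ker]
    refine Units.ext ?_
    show ((alk1N t u : Eˣ) : E) *
      (((Units.map t.toRingHom.toMonoidHom (alk1N t u))⁻¹ : Eˣ) : E) = 1
    rw [Units.val_inv_eq_inv_val, hval]
    have hN : ((alk1N t u : Eˣ) : E) = (u : E) * t u := rfl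
    have hu : (u : E) ≠ 0 := u.ne_zero
    have htu : t (u : E) ≠ 0 := (map_ne_zero t).2 hu
    rw [hN, map_mul, ht]
    field_simp
  have heq : (alk1N t).range = (alk1D t).ker := Subgroup.eq_of_le_of_card_ge hle h4.ge
  have hmem : Units.mk0 κ hκ ∈ (alk1N t).range := by
    rw [heq, MonoidHom.mem_ker]
    refine Units.ext ?_
    show κ * (((Units.map t.toRingHom.toMonoidHom (Units.mk0 κ hκ))⁻¹ : Eˣ) : E) = 1
    rw [Units.val_inv_eq_inv_val, hval]
    show κ * (t κ)⁻¹ = 1
    rw [hf, mul_inv_cancel₀ hκ]
  obtain ⟨z, hz⟩ := hmem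
  refine ⟨z, z.ne_zero, ?_⟩
  exact congrArg (fun x : Eˣ => (x : E)) hz

theorem st_ALK1 : ST_ALK1 := by
  intro E _ _ t hne x b hx hb H
  have hn : ∃ y, t y ≠ y := by
    by_contra hcon
    push Not at hcon
    exact hne (RingEquiv.ext hcon)
  have Hall : ∀ a : E, t (t a) * t x * b = t b * x * a := by
    intro a
    by_cases h : b = t a * x * a
    · have h1 : t b = t (t a) * t x * t a := by
        conv_lhs => rw [h]
        rw [map_mul, map_mul]
      rw [h1]
      linear_combination (t (t a) * t x) * h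
    · exact H a h
  have h1 : t x * b = t b * x := by
    have := Hall 1
    rw [map_one, map_one, one_mul, mul_one] at this
    exact this
  have htx : t x ≠ 0 := (map_ne_zero t).2 hx
  have ht : ∀ a, t (t a) = a := by
    intro a
    have h2 := Hall a
    have h3 : t x * b ≠ 0 := mul_ne_zero htx hb
    have h4 : (t (t a) - a) * (t x * b) = 0 := by
      linear_combination h2 - a * h1
    rcases mul_eq_zero.1 h4 with h5 | h5
    · exact sub_eq_zero.1 h5
    · exact absurd h5 h3
  refine ⟨ht, ?_, ?_⟩
  · have hκ : b / x ≠ 0 := div_ne_zero hb hx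
    have hf : t (b / x) = b / x := by
      rw [map_div₀, div_eq_div_iff htx hx]
      linear_combination -h1
    obtain ⟨z, hz0, hz⟩ := alk1_norm t ht hn (b / x) hκ hf
    obtain ⟨y, hy⟩ := hn
    have hy0 : y ≠ 0 := by
      intro h
      rw [h, map_zero] at hy
      exact hy rfl
    have hty0 : t y ≠ 0 := (map_ne_zero t).2 hy0
    refine ⟨z, z * (y / t y), ?_, ?_, ?_⟩
    · intro h
      apply hy
      have h2 : y / t y = 1 := by
        have : z * (y / t y) = z * 1 := by rw [mul_one]; exact h.symm
        exact mul_left_cancel₀ hz0 this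
      rw [div_eq_one_iff_eq hty0] at h2
      exact h2.symm
    · rw [eq_div_iff hx] at hz
      rw [← hz]
      ring
    · rw [eq_div_iff hx] at hz
      rw [map_mul, map_div₀, ht]
      rw [← hz]
      field_simp
  · intro a ha
    have hta : t a ≠ 0 := (map_ne_zero t).2 ha
    -- an element of nonzero trace
    obtain ⟨y, hy⟩ : ∃ y, y + t y ≠ 0 := by
      by_contra hcon
      push Not at hcon
      obtain ⟨y, hy⟩ := hn
      apply hy
      have h2 := hcon 1
      rw [map_one] at h2
      have h3 := hcon y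
      linear_combination h3 - y * h2
    refine ⟨-(y / (y + t y)) / t a, ?_⟩
    have h2 : t y + y ≠ 0 := by rw [add_comm]; exact hy
    rw [map_div₀, map_neg, map_div₀, map_add, ht, ht]
    field_simp
    ring

end Pool.Agent.Helper42.QD
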