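import Pool.Agent.Helper42.QD.Stmts

/-!
# C1A: the case `sg ^ h ≠ 1`, first part
-/

set_option autoImplicit false

namespace Pool.Agent.Helper42.QD

open VD

variable {D k : Type} [DivisionRing D] [Field k] {c : VD D k}

theorem c1a_ww_inv : (ww D)⁻¹ = ww D := inv_eq_of_mul_eq_one_right ww_ww

theorem c1a_conj_ww (p q r s : D) :
    (ww D).val * !![p, q; r, s] * (ww D)⁻¹.val = !![s, r; q, p] := by
  rw [c1a_ww_inv, ww_val]
  refine Matrix.ext fun i j => ?_
  fin_cases i <;> fin_cases j <;> simp [Matrix.mul_apply, Fin.sum_univ_two]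

theorem c1a_conj_nn (b p q r s : D) :
    (nn b).val * !![p, q; r, s] * (nn b)⁻¹.val =
      !![p + b * r, q + b * s - (p + b * r) * b; r, s - r * b] := by
  rw [nn_inv, nn_val, nn_val]
  refine Matrix.ext fun i j => ?_
  fin_cases i <;> fin_cases j <;> simp [Matrix.mul_apply, Fin.sum_univ_two]
  · abel
  · abel

/-- if a residue automorphism power is nontrivial then `oh` is small -/
theorem c1a_oh {h : ℕ} {oh : D} (hsg : c.sg ^ h ≠ 1) (h1 : c.P (-h) oh)
    (h3 : ∀ y, y ≠ 0 → c.P (1 - h) (y * oh * y⁻¹ - oh)) : c.P (1 - h) oh := by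
  by_contra hcon
  apply hsg
  have hoh : oh ≠ 0 := ne_of_not_P hcon
  have hv1 := lt_of_not_P hcon
  have hv2 := (P_iff hoh).1 h1
  have hv : c.v oh = -(h : ℤ) := by omega
  obtain ⟨u, hu, hu0, hu1⟩ := exists_unit (c := c) hoh
  rw [hv] at hu1
  refine RingEquiv.ext fun a => ?_
  show (c.sg ^ h) a = a
  by_cases ha : a = 0
  · rw [ha, map_zero]
  · obtain ⟨y, hy, hy0, hya⟩ := unit_lift (c := c) a ha
    have hT := T_zpow_ne (c := c) (h : ℤ)
    have h4 := P_mul (P_self (c := c) (x := c.T ^ (h : ℤ))) (h3 y hy)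
    rw [v_T_zpow] at h4
    have h5 : c.T ^ (h : ℤ) * (y * oh * y⁻¹ - oh) =
        (c.T ^ (h : ℤ) * y * (c.T ^ (h : ℤ))⁻¹) * u * y⁻¹ - u := by
      rw [hu1, zpow_neg, mul_sub]
      congr 1
      · simp only [mul_assoc]
      · rw [← mul_assoc, mul_inv_cancel₀ hT, one_mul]
    rw [h5] at h4
    have h6 : c.P 1 ((c.T ^ (h : ℤ) * y * (c.T ^ (h : ℤ))⁻¹) * u * y⁻¹ - u) := P_mono (by omega) h4
    have p1 : c.P 0 y := Or.inr hy0.ge
    have p2 : c.P 0 (c.T ^ (h : ℤ) * y * (c.T ^ (h : ℤ))⁻¹) := P_conj hT p1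
    have p3 : c.P 0 u := Or.inr hu0.ge
    have p4 : c.P 0 y⁻¹ := Or.inr (by rw [v_inv hy, hy0]; simp)
    have p5 : c.P 0 (c.T ^ (h : ℤ) * y * (c.T ^ (h : ℤ))⁻¹ * u) := P_mul' p2 p3 (by omega)
    have p6 : c.P 0 (c.T ^ (h : ℤ) * y * (c.T ^ (h : ℤ))⁻¹ * u * y⁻¹) := P_mul' p5 p4 (by omega)
    have h7 := (r_congr p6 p3).2 h6
    rw [c.r_mul _ _ p5 p4, c.r_mul _ _ p2 p3, r_T_zpow _ p1, r_inv hy hy0, hya] at h7
    have h8 : c.r u ≠ 0 := r_ne_zero hu hu0
    have h9 : (c.sg ^ (h : ℤ)) a = a := by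
      field_simp at h7
      exact h7
    rw [zpow_natCast] at h9
    exact h9

theorem st_C1A (hEXB : ST_EXB) (hCON : ST_CON) (_hA : ST_A) : ST_C1A := by
  intro D k _ _ _ c R h f oh hh hnoI hsg hf hfix hoh
  obtain ⟨ho1, ho2, ho3⟩ := hoh
  have hoh : IsOh R h oh := ⟨ho1, ho2, ho3⟩
  have hohs : c.P (1 - h) oh := c1a_oh hsg ho1 ho3
  have hT : c.T ^ (-(h : ℤ)) ≠ 0 := T_zpow_ne (c := c) _
  have hvT : c.v (c.T ^ (-(h : ℤ))) = -(h : ℤ) := v_T_zpow (c := c) _
  obtain ⟨x, B, hx1, hB, hty⟩ := hEXB D k c R h f oh hh hf hfix hoh _ hT hvT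
  obtain ⟨hx0, hxv⟩ := v_congr (c := c) hT (y := x) (P_mono (by rw [hvT]; omega) hx1)
  rw [hvT] at hxv
  have hxP : c.P (-h) x := Or.inr hxv.ge
  have hh' : (0 : ℤ) < h := by exact_mod_cast hh
  have hS : IsS c (ind c x 0) := IsS_ind hx0 (by rw [hxv]; omega)
  obtain ⟨g, hgdef⟩ : ∃ g : Sp c, g.1 = ind c x 0 := ⟨⟨_, hS⟩, rfl⟩
  have hg : Ty R h !![0, B; x, oh] g := hty g hgdef
  have hg0 : g ≠ 0 := by
    intro h0
    have h1 : g.1 x = 0 := by rw [h0]; rfl
    rw [hgdef] at h1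
    unfold ind at h1
    rw [if_pos (by rw [sub_self]; exact c.P_zero 0)] at h1
    exact one_ne_zero h1
  refine ⟨x, B, g, hohs, hx0, hxv, hB, ?_, hg0, hg, ?_⟩
  · intro hBs
    have h1 : Ty R h !![0, 0; x, 0] g := by
      refine Ty_congr (fun i j => ?_) hg
      fin_cases i <;> fin_cases j
      · show c.P (1 - h) ((0 : D) - 0)
        rw [sub_zero]; exact c.P_zero _
      · show c.P (1 - h) (B - 0)
        rw [sub_zero]; exact hBs
      · show c.P (1 - h) (x - x)
        rw [sub_self]; exact c.P_zero _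
      · show c.P (1 - h) (oh - 0)
        rw [sub_zero]; exact hohs
    have h2 := Ty_KO (KO_ww (c := c)) h1
    rw [c1a_conj_ww] at h2
    refine rho_ne (R := R) (g := ww D) hg0 (hnoI R _ ?_)
    intro g' hg'
    have hKK : KK c h g' := by
      obtain ⟨k1, k2, k3, k4⟩ := KI_iff.1 hg'
      exact KK_iff.2 ⟨k1, k2, P_mono (by omega) k3, k4⟩
    have hk3 := hg'.2.2.1
    rw [h2 g' hKK]
    have htr : (!![0, x; 0, 0] * (g'.val - 1)).trace = x * (g'.val - 1) 1 0 := by
      simp [Matrix.trace, Matrix.mul_apply, Fin.sum_univ_two, Matrix.diag]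
    rw [htr, c.psi_P _ (P_mul' hxP hk3 (by omega)), one_smul]
  · intro b hb hnb
    have h1 := Ty_KO (KO_nn (c := c) hb) hg
    rw [c1a_conj_nn] at h1
    have h2 := Ty_KO (KO_ww (c := c)) h1
    rw [c1a_conj_ww] at h2
    have hboh : c.P (1 - h) (b * oh) := P_mul' hb hohs (by omega)
    have hxb : c.P (-h) (x * b) := P_mul' hxP hb (by omega)
    have hbx : c.P (-h) (b * x) := P_mul' hb hxP (by omega)
    have hbxb : c.P (-h) (b * x * b) := P_mul' hbx hb (by omega)
    have h3 : Ty R h !![-(x * b), x; B - b * x * b, b * x] (R.rho (ww D) (R.rho (nn b) g)) := by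
      refine Ty_congr (fun i j => ?_) h2
      fin_cases i <;> fin_cases j
      · show c.P (1 - h) ((oh - x * b) - -(x * b))
        have : (oh - x * b) - -(x * b) = oh := by abel
        rw [this]; exact hohs
      · show c.P (1 - h) (x - x)
        rw [sub_self]; exact c.P_zero _
      · show c.P (1 - h) ((B + b * oh - (0 + b * x) * b) - (B - b * x * b))
        have : (B + b * oh - (0 + b * x) * b) - (B - b * x * b) = b * oh := by
          rw [zero_add]; abel
        rw [this]; exact hboh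
      · show c.P (1 - h) ((0 + b * x) - b * x)
        rw [zero_add, sub_self]; exact c.P_zero _
    have hM : ∀ i j, c.P (-h) ((!![-(x * b), x; B - b * x * b, b * x] : Matrix (Fin 2) (Fin 2) D) i j) := by
      intro i j
      fin_cases i <;> fin_cases j
      · exact P_neg hxb
      · exact hxP
      · exact P_sub hB hbxb
      · exact hbx
    have hne : R.rho (ww D) (R.rho (nn b) g) ≠ 0 := rho_ne (rho_ne hg0)
    have h4 := hCON D k c R h oh _ _ hh hoh hM h3 hne hnb
    have h5 : c.P (1 - h) (b * x - oh + (B - b * x * b) * -(x * b) * (B - b * x * b)⁻¹) := h4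
    have hW0 : B - b * x * b ≠ 0 := ne_of_not_P hnb
    have hWP : c.P (-h) (B - b * x * b) := P_sub hB hbxb
    have h6 : c.P (1 - h) (b * x + (B - b * x * b) * -(x * b) * (B - b * x * b)⁻¹) := by
      have := P_add h5 hohs
      have e : b * x - oh + (B - b * x * b) * -(x * b) * (B - b * x * b)⁻¹ + oh =
        b * x + (B - b * x * b) * -(x * b) * (B - b * x * b)⁻¹ := by abel
      rwa [e] at this
    have h7 := P_mul h6 hWP
    have e : (b * x + (B - b * x * b) * -(x * b) * (B - b * x * b)⁻¹) * (B - b * x * b) =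
        b * x * B - B * x * b := by
      rw [add_mul, mul_assoc _ (B - b * x * b)⁻¹, inv_mul_cancel₀ hW0, mul_one]
      noncomm_ring
    rw [e] at h7
    exact P_mono (by omega) h7

end Pool.Agent.Helper42.QD
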